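import Mathlib

/-!
# Semi-translation planes and their ternary fields

General definitions: collineations, translations (elations with axis `W`, or the identity),
subplanes, Baer subplanes, semi-translation planes, and the Hall coordinatisation of the affine
plane `P ∖ W` with respect to a quadrangle `o, e, u, v` with `u, v` on `W`.
-/

namespace Pool.Agent.MP_da03c4_co

open Configuration

/-- A collineation: a bijection of the points and a bijection of the lines preserving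
incidence in both directions. -/
structure Collineation (P L : Type) [Membership P L] where
  /-- action on points -/
  pts : P ≃ P
  /-- action on lines -/
  lns : L ≃ L
  mem_iff : ∀ (p : P) (l : L), pts p ∈ lns l ↔ p ∈ l

/-- A translation with respect to the line `W`: a collineation which fixes every point of `W`
and, for some point `c` of `W`, every line through `c`; i.e. an elation with axis `W`, or the
identity. -/
def IsTranslation {P L : Type} [Membership P L] (W : L) (σ : Collineation P L) : Prop :=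
  (∀ p : P, p ∈ W → σ.pts p = p) ∧ ∃ c : P, c ∈ W ∧ ∀ l : L, c ∈ l → σ.lns l = l

/-- The affine plane obtained by deleting the line `W` is a translation plane: its translations
act transitively on its points. -/
def IsTranslationPlane {P L : Type} [Membership P L] (W : L) : Prop :=
  ∀ p q : P, p ∉ W → q ∉ W → ∃ σ : Collineation P L, IsTranslation W σ ∧ σ.pts p = q

/-- Four points, no three of them on a common line. -/
def IsQuadrangle {P : Type} (L : Type) [Membership P L] (a b c d : P) : Prop :=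
  ∀ l : L, ¬ (a ∈ l ∧ b ∈ l ∧ c ∈ l) ∧ ¬ (a ∈ l ∧ b ∈ l ∧ d ∈ l) ∧
    ¬ (a ∈ l ∧ c ∈ l ∧ d ∈ l) ∧ ¬ (b ∈ l ∧ c ∈ l ∧ d ∈ l)

/-- A subplane of a projective plane: a set of points and a set of lines, closed under joining
distinct points and under intersecting distinct lines, and containing a quadrangle. -/
structure Subplane (P L : Type) [Membership P L] where
  /-- the points of the subplane -/
  pts : Set P
  /-- the lines of the subplane -/
  lns : Set L
  join_mem : ∀ (p q : P) (l : L), p ∈ pts → q ∈ pts → p ≠ q → p ∈ l → q ∈ l → l ∈ lns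
  meet_mem : ∀ (l m : L) (p : P), l ∈ lns → m ∈ lns → l ≠ m → p ∈ l → p ∈ m → p ∈ pts
  quadrangle : ∃ a b c d : P, a ∈ pts ∧ b ∈ pts ∧ c ∈ pts ∧ d ∈ pts ∧ IsQuadrangle L a b c d

/-- Incidence between points and lines of a subplane is inherited from the plane. -/
instance Subplane.membership {P L : Type} [Membership P L] (Q : Subplane P L) :
    Membership Q.pts Q.lns :=
  ⟨fun l p => (p : P) ∈ (l : L)⟩

/-- `Q` is a Baer subplane: every point lies on a line of `Q`, every line contains a point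
of `Q`. -/
def Subplane.IsBaer {P L : Type} [Membership P L] (Q : Subplane P L) : Prop :=
  (∀ p : P, ∃ l : L, l ∈ Q.lns ∧ p ∈ l) ∧ (∀ l : L, ∃ p : P, p ∈ Q.pts ∧ p ∈ l)

/-- The affine plane `P ∖ W` is a semi-translation plane with Baer subplane `Q ∖ W`:
`W` is a line of the Baer subplane `Q`, `Q ∖ W` is a translation plane, and every translation of
`Q ∖ W` is induced by a translation of `P ∖ W`. -/
def IsSemiTranslationPlane {P L : Type} [Membership P L] (W : L) (Q : Subplane P L) : Prop :=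
  ∃ hW : W ∈ Q.lns, Q.IsBaer ∧
    IsTranslationPlane (P := Q.pts) (L := Q.lns) ⟨W, hW⟩ ∧
    ∀ τ : Collineation Q.pts Q.lns, IsTranslation (P := Q.pts) (L := Q.lns) ⟨W, hW⟩ τ →
      ∃ σ : Collineation P L, IsTranslation W σ ∧
        (∀ p : Q.pts, σ.pts (p : P) = (τ.pts p : P)) ∧
        (∀ l : Q.lns, σ.lns (l : L) = (τ.lns l : L))

/-- A frame for coordinates: a quadrangle `o, e, u, v` with `u, v` on the line `W`. -/
structure Frame {P L : Type} [Membership P L] (W : L) where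
  /-- the origin `(0,0)` -/
  o : P
  /-- the unit point `(1,1)` -/
  e : P
  /-- the point at infinity of the horizontal lines -/
  u : P
  /-- the point at infinity of the vertical lines -/
  v : P
  quad : IsQuadrangle L o e u v
  u_mem : u ∈ W
  v_mem : v ∈ W

namespace Frame

variable {P L : Type} [Membership P L] {W : L} (F : Frame (P := P) W)

/-- The set `𝔗` of coordinates: the points `x = (x,x)` of the line `oe` which are not on `W`. -/
def T : Type := {x : P // x ∉ W ∧ ∃ l : L, F.o ∈ l ∧ F.e ∈ l ∧ x ∈ l}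

/-- `p` is the affine point with coordinates `(x,y)`: it is on the vertical line (the line
through `v`) of the diagonal point `(x,x)` and on the horizontal line (the line through `u`) of
the diagonal point `(y,y)`. -/
def IsPt (x y : P) (p : P) : Prop :=
  p ∉ W ∧ (∃ l : L, F.v ∈ l ∧ x ∈ l ∧ p ∈ l) ∧ (∃ l : L, F.u ∈ l ∧ y ∈ l ∧ p ∈ l)

/-- `s` is the point at infinity (on `W`) of the line joining `o = (0,0)` to `(1,m)`. -/
def IsSlope (m s : P) : Prop :=
  s ∈ W ∧ ∃ (l : L) (p : P), F.IsPt F.e m p ∧ F.o ∈ l ∧ p ∈ l ∧ s ∈ l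

/-- The point `(x,y)` is on the line through `(0,b)` and the point at infinity of slope `m`,
that is `y = x·m∘b`. -/
def IsTern (x m b y : P) : Prop :=
  ∃ (l : L) (s p q : P), F.IsSlope m s ∧ F.IsPt F.o b q ∧ F.IsPt x y p ∧ s ∈ l ∧ q ∈ l ∧ p ∈ l

end Frame

section Plane

variable {P L : Type} [Membership P L] [ProjectivePlane P L]

lemma exists_join (p q : P) (h : p ≠ q) : ∃ l : L, p ∈ l ∧ q ∈ l :=
  ⟨HasLines.mkLine h, HasLines.mkLine_ax h⟩

lemma exists_meet (l m : L) (h : l ≠ m) : ∃ p : P, p ∈ l ∧ p ∈ m :=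
  ⟨HasPoints.mkPoint h, HasPoints.mkPoint_ax h⟩

lemma line_unique {p q : P} {l m : L} (h : p ≠ q) (h1 : p ∈ l) (h2 : q ∈ l) (h3 : p ∈ m)
    (h4 : q ∈ m) : l = m :=
  (Nondegenerate.eq_or_eq h1 h2 h3 h4).resolve_left h

lemma point_unique {p q : P} {l m : L} (h : l ≠ m) (h1 : p ∈ l) (h2 : q ∈ l) (h3 : p ∈ m)
    (h4 : q ∈ m) : p = q :=
  (Nondegenerate.eq_or_eq h1 h2 h3 h4).resolve_right h

/-- every point is on some line together with any other point, even the same point -/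
lemma exists_join' (p q : P) : ∃ l : L, p ∈ l ∧ q ∈ l := by
  by_cases h : p = q
  · subst h
    obtain ⟨l, hl⟩ := Nondegenerate.exists_line (P := P) (L := L) p
    obtain ⟨r, hr⟩ : ∃ r : P, r ∈ l := by
      obtain ⟨m, hm⟩ := Nondegenerate.exists_line (P := P) (L := L) p
      obtain ⟨p₁, p₂, p₃, l₁, l₂, l₃, h₁₂, h₁₃, h₂₁, h₂₂, h₂₃, h₃₁, h₃₂, h₃₃⟩ :=
        @ProjectivePlane.exists_config P L _ _
      by_cases hl2 : l = l₂
      · exact ⟨p₂, hl2 ▸ h₂₂⟩
      · obtain ⟨r, hr, -⟩ := exists_meet (P := P) l l₂ hl2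
        exact ⟨r, hr⟩
    obtain ⟨m, hm, -⟩ := exists_join (L := L) p r (fun h => hl (h ▸ hr))
    exact ⟨m, hm, hm⟩
  · exact exists_join p q h

namespace Frame

variable {W : L} (F : Frame (P := P) W)

include F in
lemma u_ne_v : F.u ≠ F.v := by
  intro h
  obtain ⟨l, h1, h2⟩ := exists_join' (L := L) F.o F.u
  exact (F.quad l).2.2.1 ⟨h1, h2, h ▸ h2⟩

lemma o_ne_e : F.o ≠ F.e := by
  intro h
  obtain ⟨l, h1, h2⟩ := exists_join' (L := L) F.o F.u
  exact (F.quad l).1 ⟨h1, h ▸ h1, h2⟩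

omit [ProjectivePlane P L] in
lemma o_not_mem : F.o ∉ W := fun h => (F.quad W).2.2.1 ⟨h, F.u_mem, F.v_mem⟩

omit [ProjectivePlane P L] in
lemma e_not_mem : F.e ∉ W := fun h => (F.quad W).2.2.2 ⟨h, F.u_mem, F.v_mem⟩

/-- The element `0` of `𝔗`. -/
def zero : F.T :=
  ⟨F.o, F.o_not_mem, by
    obtain ⟨l, h1, h2⟩ := exists_join (L := L) F.o F.e F.o_ne_e
    exact ⟨l, h1, h2, h1⟩⟩

/-- The element `1` of `𝔗`. -/
def one : F.T :=
  ⟨F.e, F.e_not_mem, by
    obtain ⟨l, h1, h2⟩ := exists_join (L := L) F.o F.e F.o_ne_e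
    exact ⟨l, h1, h2, h2⟩⟩

/-- A line through `v` and an affine point meets `W` only in `v`. -/
lemma eq_v {l : L} {x p : P} (hx : x ∉ W) (hv : F.v ∈ l) (hxl : x ∈ l) (hp : p ∈ l)
    (hpW : p ∈ W) : p = F.v := by
  apply point_unique (l := l) (m := W) ?_ hp hv hpW F.v_mem
  rintro rfl
  exact hx hxl

lemma eq_u {l : L} {x p : P} (hx : x ∉ W) (hv : F.u ∈ l) (hxl : x ∈ l) (hp : p ∈ l)
    (hpW : p ∈ W) : p = F.u := by
  apply point_unique (l := l) (m := W) ?_ hp hv hpW F.u_mem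
  rintro rfl
  exact hx hxl

/-- existence of the point with given coordinates -/
lemma exists_pt {x y : P} (hx : x ∉ W) (hy : y ∉ W) : ∃ p, F.IsPt x y p := by
  have hxv : F.v ≠ x := fun h => hx (h ▸ F.v_mem)
  have hyu : F.u ≠ y := fun h => hy (h ▸ F.u_mem)
  obtain ⟨l, h1, h2⟩ := exists_join (L := L) _ _ hxv
  obtain ⟨m, h3, h4⟩ := exists_join (L := L) _ _ hyu
  have hlm : l ≠ m := by
    rintro rfl
    have : l = W := line_unique F.u_ne_v h3 h1 F.u_mem F.v_mem
    subst this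
    exact hx h2
  obtain ⟨p, hp1, hp2⟩ := exists_meet (P := P) l m hlm
  refine ⟨p, ?_, ⟨l, h1, h2, hp1⟩, ⟨m, h3, h4, hp2⟩⟩
  intro hpW
  have h5 := F.eq_v hx h1 h2 hp1 hpW
  have h6 := F.eq_u hy h3 h4 hp2 hpW
  exact F.u_ne_v (h6.symm.trans h5)

/-- uniqueness of the point with given coordinates -/
lemma pt_unique {x y p q : P} (hx : x ∉ W) (hy : y ∉ W) (hp : F.IsPt x y p)
    (hq : F.IsPt x y q) : p = q := by
  have hxv : F.v ≠ x := fun h => hx (h ▸ F.v_mem)
  have hyu : F.u ≠ y := fun h => hy (h ▸ F.u_mem)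
  obtain ⟨_, ⟨l, h1, h2, h3⟩, ⟨m, h4, h5, h6⟩⟩ := hp
  obtain ⟨_, ⟨l', h1', h2', h3'⟩, ⟨m', h4', h5', h6'⟩⟩ := hq
  have e1 : l' = l := line_unique hxv h1' h2' h1 h2
  have e2 : m' = m := line_unique hyu h4' h5' h4 h5
  subst e1; subst e2
  have hlm : l' ≠ m' := by
    rintro rfl
    have : l' = W := line_unique F.u_ne_v h4 h1 F.u_mem F.v_mem
    subst this
    exact hx h2
  exact point_unique hlm h3 h3' h6 h6'

lemma slope_ne_v {m s : P} (hs : F.IsSlope m s) : s ≠ F.v := by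
  obtain ⟨-, l, p, ⟨hpW, ⟨l', h1, h2, h3⟩, -⟩, h4, h5, h6⟩ := hs
  rintro rfl
  have hpv : F.v ≠ p := fun h => hpW (h ▸ F.v_mem)
  have : l = l' := line_unique hpv h6 h5 h1 h3
  subst this
  exact (F.quad l).2.1 ⟨h4, h2, h6⟩

lemma exists_slope' {m : P} (hm : m ∉ W) : ∃ s, F.IsSlope m s := by
  obtain ⟨p, hp⟩ := F.exists_pt F.e_not_mem hm
  have hpo : F.o ≠ p := by
    rintro rfl
    obtain ⟨l, h1, h2, h3⟩ := hp.2.1
    exact (F.quad l).2.1 ⟨h3, h2, h1⟩
  obtain ⟨l, h1, h2⟩ := exists_join (L := L) _ _ hpo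
  have hlW : l ≠ W := by
    rintro rfl
    exact F.o_not_mem h1
  obtain ⟨s, hs1, hs2⟩ := exists_meet (P := P) l W hlW
  exact ⟨s, hs2, l, p, hp, h1, h2, hs1⟩

lemma slope_unique' {m s t : P} (hm : m ∉ W) (hs : F.IsSlope m s) (ht : F.IsSlope m t) :
    s = t := by
  obtain ⟨hsW, l, p, hp, h4, h5, h6⟩ := hs
  obtain ⟨htW, l', p', hp', h4', h5', h6'⟩ := ht
  have e1 : p' = p := F.pt_unique F.e_not_mem hm hp' hp
  subst e1
  have hpo : F.o ≠ p' := by
    rintro rfl
    obtain ⟨l, h1, h2, h3⟩ := hp.2.1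
    exact (F.quad l).2.1 ⟨h3, h2, h1⟩
  have e2 : l' = l := line_unique hpo h4' h5' h4 h5
  subst e2
  have hlW : l' ≠ W := by
    rintro rfl
    exact F.o_not_mem h4
  exact point_unique hlW h6 h6' hsW htW

lemma exists_tern (x m b : F.T) : ∃ y : F.T, F.IsTern x.1 m.1 b.1 y.1 := by
  obtain ⟨s, hs⟩ := F.exists_slope' m.2.1
  obtain ⟨q, hq⟩ := F.exists_pt F.o_not_mem b.2.1
  have hsq : s ≠ q := by
    rintro rfl
    exact hq.1 hs.1
  obtain ⟨l, h1, h2⟩ := exists_join (L := L) _ _ hsq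
  have hxv : F.v ≠ x.1 := fun h => x.2.1 (h ▸ F.v_mem)
  obtain ⟨k, h3, h4⟩ := exists_join (L := L) _ _ hxv
  have hkl : l ≠ k := by
    rintro rfl
    exact F.slope_ne_v hs (F.eq_v x.2.1 h3 h4 h1 hs.1)
  obtain ⟨p, hp1, hp2⟩ := exists_meet (P := P) l k hkl
  have hpW : p ∉ W := by
    intro hpW
    have e1 := F.eq_v x.2.1 h3 h4 hp2 hpW
    apply F.slope_ne_v hs
    rw [← e1]
    apply point_unique (l := l) (m := W) ?_ h1 hp1 hs.1 hpW
    rintro rfl
    exact hq.1 h2
  have hup : F.u ≠ p := fun h => hpW (h ▸ F.u_mem)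
  obtain ⟨j, h5, h6⟩ := exists_join (L := L) _ _ hup
  obtain ⟨d, h7, h8⟩ := exists_join (L := L) _ _ F.o_ne_e
  have hjd : j ≠ d := by
    rintro rfl
    exact (F.quad j).1 ⟨h7, h8, h5⟩
  obtain ⟨y, hy1, hy2⟩ := exists_meet (P := P) j d hjd
  have hyW : y ∉ W := by
    intro hyW
    have e1 := F.eq_u hpW h5 h6 hy1 hyW
    subst e1
    exact (F.quad d).1 ⟨h7, h8, hy2⟩
  exact ⟨⟨y, hyW, d, h7, h8, hy2⟩, l, s, p, q, hs, hq,
    ⟨hpW, ⟨k, h3, h4, hp2⟩, ⟨j, h5, hy1, h6⟩⟩, h1, h2, hp1⟩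

lemma tern_unique {x m b y z : F.T} (hy : F.IsTern x.1 m.1 b.1 y.1)
    (hz : F.IsTern x.1 m.1 b.1 z.1) : y = z := by
  obtain ⟨l, s, p, q, hs, hq, hp, h1, h2, h3⟩ := hy
  obtain ⟨l', s', p', q', hs', hq', hp', h1', h2', h3'⟩ := hz
  have e1 : s' = s := F.slope_unique' m.2.1 hs' hs
  have e2 : q' = q := F.pt_unique F.o_not_mem b.2.1 hq' hq
  subst e1; subst e2
  have hsq : s' ≠ q' := by
    rintro rfl
    exact hq.1 hs.1
  have e3 : l' = l := line_unique hsq h1' h2' h1 h2
  subst e3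
  obtain ⟨hpW, ⟨k, h4, h5, h6⟩, ⟨j, h7, h8, h9⟩⟩ := hp
  obtain ⟨hpW', ⟨k', h4', h5', h6'⟩, ⟨j', h7', h8', h9'⟩⟩ := hp'
  have hxv : F.v ≠ x.1 := fun h => x.2.1 (h ▸ F.v_mem)
  have e4 : k' = k := line_unique hxv h4' h5' h4 h5
  subst e4
  have hkl : l' ≠ k' := by
    rintro rfl
    exact F.slope_ne_v hs (F.eq_v x.2.1 h4 h5 h1 hs.1)
  have e5 : p' = p := point_unique hkl h3' h3 h6' h6
  subst e5
  have hup : F.u ≠ p' := fun h => hpW (h ▸ F.u_mem)
  have e6 : j' = j := line_unique hup h7' h9' h7 h9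
  subst e6
  obtain ⟨d, h10, h11, h12⟩ := y.2.2
  obtain ⟨d', h10', h11', h12'⟩ := z.2.2
  have e7 : d' = d := line_unique F.o_ne_e h10' h11' h10 h11
  subst e7
  have hjd : j' ≠ d' := by
    rintro rfl
    exact (F.quad j').1 ⟨h10, h11, h7⟩
  exact Subtype.ext (point_unique hjd h8 h8' h12 h12')

/-- The ternary operation of the ternary field `𝔗(o,e,u,v)`: `tern x m b = x·m∘b` is the unique
`y` such that `(x,y)` is on the line through `(0,b)` and the point at infinity of the line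
joining `(0,0)` and `(1,m)`. -/
noncomputable def tern (x m b : F.T) : F.T := (F.exists_tern x m b).choose

lemma tern_spec (x m b : F.T) : F.IsTern x.1 m.1 b.1 (F.tern x m b).1 :=
  (F.exists_tern x m b).choose_spec

lemma tern_eq {x m b y : F.T} (h : F.IsTern x.1 m.1 b.1 y.1) : F.tern x m b = y :=
  F.tern_unique (F.tern_spec x m b) h

/-- Addition in the ternary field: `a + b = a·1∘b`. -/
noncomputable def add (a b : F.T) : F.T := F.tern a F.one b

/-- Multiplication in the ternary field: `ab = a·b∘0`. -/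
noncomputable def mul (a b : F.T) : F.T := F.tern a b F.zero

/-- The frame is contained in the subplane `Q`. -/
def InSubplane (Q : Subplane P L) : Prop :=
  F.o ∈ Q.pts ∧ F.e ∈ Q.pts ∧ F.u ∈ Q.pts ∧ F.v ∈ Q.pts

/-- `𝔔`-linearity of the ternary field: `x·s∘y = xs + y` for all `x, y` in `𝔗` and all `s` in
`𝔔`, where `𝔔` is the set of coordinates which are points of the subplane. -/
def IsLinearOver (Q : Subplane P L) : Prop :=
  ∀ x y s : F.T, s.1 ∈ Q.pts → F.tern x s y = F.add (F.mul x s) y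

end Frame

end Plane

end Pool.Agent.MP_da03c4_co
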