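import Mathlib

/-!
# Back-and-forth construction of the curved lines

`V = ℚ × ℚ`.  A direction is an element `s : Option ℚ`; `icpt s` is the linear functional whose
kernel is the one-dimensional subspace of slope `s`.  `tw s ν` is a twist which is nonzero at a
single pair `(s, ν)`.  We construct functions `f m : V → V`, `m : ℕ`, as needed for the lines of
the plane whose slope is not a slope of the Baer subplane.
-/

namespace Pool.Agent.MP_da03c4_co

/-- The vector space `ℚ²`. -/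
abbrev V : Type := ℚ × ℚ

/-- The linear functional on `ℚ²` with kernel the line of slope `s` through the origin. -/
def icpt : Option ℚ → V → ℚ
  | some s, d => d.2 - s * d.1
  | none, d => d.1

@[simp] lemma icpt_some (s : ℚ) (d : V) : icpt (some s) d = d.2 - s * d.1 := rfl
@[simp] lemma icpt_none (d : V) : icpt none d = d.1 := rfl

lemma icpt_add (s : Option ℚ) (a b : V) : icpt s (a + b) = icpt s a + icpt s b := by
  cases s <;> simp <;> ring

lemma icpt_sub (s : Option ℚ) (a b : V) : icpt s (a - b) = icpt s a - icpt s b := by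
  cases s <;> simp <;> ring

lemma icpt_zero (s : Option ℚ) : icpt s 0 = 0 := by
  cases s <;> simp

/-- Two distinct points lie on a common line of some slope. -/
lemma exists_slope (a b : V) : ∃ s, icpt s a = icpt s b := by
  by_cases h : a.1 = b.1
  · exact ⟨none, h⟩
  · refine ⟨some ((a.2 - b.2) / (a.1 - b.1)), ?_⟩
    have : a.1 - b.1 ≠ 0 := sub_ne_zero.mpr h
    simp only [icpt_some]
    field_simp
    ring

/-- Functionals of different slopes separate points. -/
lemma eq_of_icpt {s t : Option ℚ} (hst : s ≠ t) {a b : V} (h1 : icpt s a = icpt s b)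
    (h2 : icpt t a = icpt t b) : a = b := by
  rcases s with _ | s <;> rcases t with _ | t
  · exact absurd rfl hst
  · simp only [icpt_none, icpt_some] at h1 h2
    ext
    · exact h1
    · rw [h1] at h2; linarith
  · simp only [icpt_none, icpt_some] at h1 h2
    ext
    · exact h2
    · rw [h2] at h1; linarith
  · simp only [icpt_some] at h1 h2
    have hne : s - t ≠ 0 := by
      intro h; apply hst; rw [sub_eq_zero.mp h]
    have h3 : (s - t) * (a.1 - b.1) = 0 := by linarith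
    have h4 : a.1 = b.1 := by
      rcases mul_eq_zero.mp h3 with h | h
      · exact absurd h hne
      · linarith
    ext
    · exact h4
    · rw [h4] at h1; linarith

lemma slope_unique {s t : Option ℚ} {a b : V} (hab : a ≠ b) (h1 : icpt s a = icpt s b)
    (h2 : icpt t a = icpt t b) : s = t := by
  by_contra hst
  exact hab (eq_of_icpt hst h1 h2)

/-- Two functionals of different slopes take arbitrary values. -/
lemma exists_icpt {s t : Option ℚ} (hst : s ≠ t) (x y : ℚ) :
    ∃ a : V, icpt s a = x ∧ icpt t a = y := by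
  rcases s with _ | s <;> rcases t with _ | t
  · exact absurd rfl hst
  · exact ⟨(x, y + t * x), rfl, by simp⟩
  · exact ⟨(y, x + s * y), by simp, rfl⟩
  · have hne : s - t ≠ 0 := by
      intro h; apply hst; rw [sub_eq_zero.mp h]
    refine ⟨((y - x) / (s - t), x + s * ((y - x) / (s - t))), by simp, ?_⟩
    simp only [icpt_some]
    field_simp
    ring

/-- The twist: nonzero only at the point `(1,3)` in direction `2`. -/
def tw (s : Option ℚ) (ν : V) : ℚ := if s = some 2 ∧ ν = (1, 3) then 1 else 0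

/-- parametrisation of the line `icpt s = c`. -/
def lp : Option ℚ → ℚ → ℚ → V
  | some s, c, t => (t, s * t + c)
  | none, c, t => (c, t)

lemma icpt_lp (s : Option ℚ) (c t : ℚ) : icpt s (lp s c t) = c := by
  cases s <;> simp [lp]

lemma lp_injective (s : Option ℚ) (c : ℚ) : Function.Injective (lp s c) := by
  intro t t' h
  cases s with
  | none => simpa [lp] using h
  | some s => simp only [lp, Prod.mk.injEq] at h; exact h.1

/-- A line of another slope meets a line in at most one parameter value. -/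
lemma finite_lp {s s' : Option ℚ} (h : s' ≠ s) (c c' : ℚ) :
    {t : ℚ | icpt s' (lp s c t) = c'}.Finite := by
  apply Set.Subsingleton.finite
  intro t ht t' ht'
  apply lp_injective s c
  apply eq_of_icpt h
  · rw [ht, ht']
  · rw [icpt_lp, icpt_lp]

/-- The parabola meets a line in finitely many points. -/
lemma finite_parabola (s : Option ℚ) (c : ℚ) :
    {t : ℚ | icpt s (t, t ^ 2) = c}.Finite := by
  cases s with
  | none =>
    apply Set.Subsingleton.finite
    intro t ht t' ht'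
    simp only [icpt_none, Set.mem_setOf_eq] at ht ht'
    rw [ht, ht']
  | some s =>
    have hsub : {t : ℚ | icpt (some s) (t, t ^ 2) = c} ⊆
        {t : ℚ | (Polynomial.X ^ 2 - Polynomial.C s * Polynomial.X - Polynomial.C c :
          Polynomial ℚ).IsRoot t} := by
      intro t ht
      simp only [icpt_some, Set.mem_setOf_eq] at ht
      simp only [Set.mem_setOf_eq, Polynomial.IsRoot.def, Polynomial.eval_sub,
        Polynomial.eval_pow, Polynomial.eval_X, Polynomial.eval_mul, Polynomial.eval_C]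
      linarith
    refine Set.Finite.subset ?_ hsub
    apply Polynomial.finite_setOf_isRoot
    intro h
    have h2 := congrArg (fun p => Polynomial.coeff p 2) h
    simp [Polynomial.coeff_X, Polynomial.coeff_C] at h2

/-- A condition: a finite set of triples `(m, ν, g)`, recording `f m ν = g`. -/
structure Good (S : Finset (ℕ × V × V)) : Prop where
  func : ∀ m ν g g', (m, ν, g) ∈ S → (m, ν, g') ∈ S → g = g'
  avoid : ∀ m ν ν' g g' s, (m, ν, g) ∈ S → (m, ν', g') ∈ S → ν ≠ ν' → icpt s ν = icpt s ν' →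
    icpt s g - tw s ν ≠ icpt s g' - tw s ν'
  diff : ∀ m m' ν ν' g g' h h', m ≠ m' → ν ≠ ν' → (m, ν, g) ∈ S → (m, ν', g') ∈ S →
    (m', ν, h) ∈ S → (m', ν', h') ∈ S → g - g' ≠ h - h'

lemma Good.empty : Good ∅ := by
  constructor <;> intros <;> simp_all

/-- Adding one triple. -/
lemma Good.insert {S : Finset (ℕ × V × V)} (hS : Good S) (m : ℕ) (ν g : V)
    (h0 : ∀ g', (m, ν, g') ∉ S)
    (h1 : ∀ ν' g' s, (m, ν', g') ∈ S → icpt s ν = icpt s ν' →
      icpt s g - tw s ν ≠ icpt s g' - tw s ν')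
    (h2 : ∀ m' ν' g' h h', m' ≠ m → (m, ν', g') ∈ S → (m', ν, h) ∈ S → (m', ν', h') ∈ S →
      g - g' ≠ h - h') :
    Good (insert (m, ν, g) S) := by
  constructor
  · intro m' ν' a b ha hb
    simp only [Finset.mem_insert, Prod.mk.injEq] at ha hb
    rcases ha with ⟨rfl, rfl, rfl⟩ | ha <;> rcases hb with ⟨h, h', rfl⟩ | hb
    · rfl
    · exact absurd hb (h0 _)
    · subst h; subst h'; exact absurd ha (h0 _)
    · exact hS.func _ _ _ _ ha hb
  · intro m' ν1 ν2 a b s ha hb hne hs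
    simp only [Finset.mem_insert, Prod.mk.injEq] at ha hb
    rcases ha with ⟨rfl, rfl, rfl⟩ | ha <;> rcases hb with ⟨h, h', rfl⟩ | hb
    · exact absurd h'.symm hne
    · exact h1 _ _ _ hb hs
    · subst h; subst h'
      exact (h1 _ _ _ ha hs.symm).symm
    · exact hS.avoid _ _ _ _ _ _ ha hb hne hs
  · intro m1 m2 ν1 ν2 a b c d hm hν ha hb hc hd heq
    simp only [Finset.mem_insert, Prod.mk.injEq] at ha hb hc hd
    have hS0 : ∀ x, (m, ν, x) ∉ S := h0
    by_cases hm1 : m1 = m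
    · have hm2 : m2 ≠ m := fun h => hm (hm1.trans h.symm)
      have hc' : (m2, ν1, c) ∈ S := by
        rcases hc with ⟨h, _, _⟩ | hc
        · exact absurd h hm2
        · exact hc
      have hd' : (m2, ν2, d) ∈ S := by
        rcases hd with ⟨h, _, _⟩ | hd
        · exact absurd h hm2
        · exact hd
      rcases ha with ⟨_, hν1, hag⟩ | ha
      · rcases hb with ⟨_, hν2, _⟩ | hb
        · exact hν (hν1.trans hν2.symm)
        · subst hν1; subst hag; subst hm1
          exact h2 _ _ _ _ _ hm2 hb hc' hd' heq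
      · rcases hb with ⟨_, hν2, hbg⟩ | hb
        · subst hν2; subst hbg; subst hm1
          refine h2 _ _ _ _ _ hm2 ha hd' hc' ?_
          rw [← neg_sub, heq, neg_sub]
        · exact hS.diff _ _ _ _ _ _ _ _ hm hν ha hb hc' hd' heq
    · have ha' : (m1, ν1, a) ∈ S := by
        rcases ha with ⟨h, _, _⟩ | ha
        · exact absurd h hm1
        · exact ha
      have hb' : (m1, ν2, b) ∈ S := by
        rcases hb with ⟨h, _, _⟩ | hb
        · exact absurd h hm1
        · exact hb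
      rcases hc with ⟨hm2, hν1, hcg⟩ | hc
      · rcases hd with ⟨_, hν2, _⟩ | hd
        · exact hν (hν1.trans hν2.symm)
        · subst hν1; subst hcg; subst hm2
          exact h2 _ _ _ _ _ hm hd ha' hb' heq.symm
      · rcases hd with ⟨hm2, hν2, hdg⟩ | hd
        · subst hν2; subst hdg; subst hm2
          refine h2 _ _ _ _ _ hm hc hb' ha' ?_
          rw [← neg_sub, ← heq, neg_sub]
        · exact hS.diff _ _ _ _ _ _ _ _ hm hν ha' hb' hc hd heq

/-- An infinite set of parameters minus finitely many finite sets. -/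
lemma exists_avoid (A B : Set ℚ) (hA : A.Finite) (hB : B.Finite) : ∃ t, t ∉ A ∧ t ∉ B := by
  obtain ⟨t, ht⟩ := (hA.union hB).exists_notMem
  exact ⟨t, fun h => ht (Or.inl h), fun h => ht (Or.inr h)⟩

/-- Task 1: extend the domain. -/
lemma task1 {S : Finset (ℕ × V × V)} (hS : Good S) (m : ℕ) (ν : V) :
    ∃ S', Good S' ∧ S ⊆ S' ∧ ∃ g, (m, ν, g) ∈ S' := by
  by_cases h : ∃ g, (m, ν, g) ∈ S
  · exact ⟨S, hS, subset_rfl, h⟩
  push Not at h
  -- bad parameters
  let A : Set ℚ := ⋃ x ∈ (S : Set (ℕ × V × V)), {t : ℚ | ∃ s, icpt s ν = icpt s x.2.1 ∧ ν ≠ x.2.1 ∧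
    icpt s (t, t ^ 2) = icpt s x.2.2 - tw s x.2.1 + tw s ν}
  have hA : A.Finite := by
    refine Set.Finite.biUnion S.finite_toSet ?_
    intro x _
    by_cases hx : ν = x.2.1
    · simp [hx]
    · obtain ⟨s, hs⟩ := exists_slope ν x.2.1
      refine (finite_parabola s (icpt s x.2.2 - tw s x.2.1 + tw s ν)).subset ?_
      rintro t ⟨s', hs', -, ht⟩
      have : s' = s := slope_unique hx hs' hs
      subst this
      exact ht
  let B : Set ℚ := ⋃ x ∈ ((S : Set (ℕ × V × V)) ×ˢ ((S : Set (ℕ × V × V)) ×ˢ (S : Set (ℕ × V × V)))),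
    {t : ℚ | t = (x.1.2.2 + x.2.1.2.2 - x.2.2.2.2).1}
  have hB : B.Finite := by
    refine Set.Finite.biUnion
      (S.finite_toSet.prod (S.finite_toSet.prod S.finite_toSet)) ?_
    intro x _
    exact Set.finite_singleton _
  obtain ⟨t, htA, htB⟩ := exists_avoid A B hA hB
  refine ⟨insert (m, ν, (t, t ^ 2)) S, hS.insert m ν (t, t ^ 2) h ?_ ?_, Finset.subset_insert _ _,
    (t, t ^ 2), Finset.mem_insert_self _ _⟩
  · intro ν' g' s hmem hs heq
    apply htA
    simp only [A, Set.mem_iUnion]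
    refine ⟨(m, ν', g'), hmem, s, hs, ?_, ?_⟩
    · rintro rfl
      exact h _ hmem
    · simp only
      linarith
  · intro m' ν' g' a b hm' hmem ha hb heq
    apply htB
    simp only [B, Set.mem_iUnion]
    refine ⟨((m, ν', g'), (m', ν, a), (m', ν', b)), ⟨hmem, ha, hb⟩, ?_⟩
    simp only [Set.mem_setOf_eq]
    have : ((t, t ^ 2) : V) = g' + a - b := by
      have := sub_eq_iff_eq_add.mp heq
      rw [this]; abel
    rw [← this]

lemma infinite_fiber (s : Option ℚ) (c : ℚ) : {ν : V | icpt s ν = c}.Infinite := by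
  have : Set.range (lp s c) ⊆ {ν : V | icpt s ν = c} := by
    rintro _ ⟨t, rfl⟩
    exact icpt_lp s c t
  exact (Set.infinite_range_of_injective (lp_injective s c)).mono this

/-- the positions used by a condition -/
lemma exists_fresh (S : Finset (ℕ × V × V)) (s : Option ℚ) (c : ℚ) :
    ∃ ν : V, icpt s ν = c ∧ ∀ m g, (m, ν, g) ∉ S := by
  obtain ⟨ν, h1, h2⟩ := (infinite_fiber s c).exists_notMem_finset (S.image (fun x => x.2.1))
  refine ⟨ν, h1, ?_⟩
  intro m g hm
  apply h2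
  rw [Finset.mem_image]
  exact ⟨_, hm, rfl⟩

/-- Task 2: `f m - f m'` is onto. -/
lemma task2 {S : Finset (ℕ × V × V)} (hS : Good S) (m m' : ℕ) (hmm : m ≠ m') (d : V) :
    ∃ S', Good S' ∧ S ⊆ S' ∧ ∃ ν g h, (m, ν, g) ∈ S' ∧ (m', ν, h) ∈ S' ∧ g - h = d := by
  by_cases hdone : ∃ ν g h, (m, ν, g) ∈ S ∧ (m', ν, h) ∈ S ∧ g - h = d
  · exact ⟨S, hS, subset_rfl, hdone⟩
  push Not at hdone
  obtain ⟨ν, -, hν⟩ := exists_fresh S none 0
  let A : Set ℚ := ⋃ x ∈ (S : Set (ℕ × V × V)), {t : ℚ | ∃ s, icpt s ν = icpt s x.2.1 ∧ ν ≠ x.2.1 ∧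
    icpt s (t, t ^ 2) = icpt s x.2.2 - tw s x.2.1 + tw s ν}
  have hA : A.Finite := by
    refine Set.Finite.biUnion S.finite_toSet ?_
    intro x _
    by_cases hx : ν = x.2.1
    · simp [hx]
    · obtain ⟨s, hs⟩ := exists_slope ν x.2.1
      refine (finite_parabola s (icpt s x.2.2 - tw s x.2.1 + tw s ν)).subset ?_
      rintro t ⟨s', hs', -, ht⟩
      have : s' = s := slope_unique hx hs' hs
      subst this
      exact ht
  let B : Set ℚ := ⋃ x ∈ (S : Set (ℕ × V × V)), {t : ℚ | ∃ s, icpt s ν = icpt s x.2.1 ∧ ν ≠ x.2.1 ∧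
    icpt s (t, t ^ 2) = icpt s d + icpt s x.2.2 - tw s x.2.1 + tw s ν}
  have hB : B.Finite := by
    refine Set.Finite.biUnion S.finite_toSet ?_
    intro x _
    by_cases hx : ν = x.2.1
    · simp [hx]
    · obtain ⟨s, hs⟩ := exists_slope ν x.2.1
      refine (finite_parabola s (icpt s d + icpt s x.2.2 - tw s x.2.1 + tw s ν)).subset ?_
      rintro t ⟨s', hs', -, ht⟩
      have : s' = s := slope_unique hx hs' hs
      subst this
      exact ht
  obtain ⟨t, htA, htB⟩ := exists_avoid A B hA hB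
  have hgood1 : Good (insert (m, ν, (t, t ^ 2)) S) := by
    refine hS.insert m ν (t, t ^ 2) (hν m) ?_ ?_
    · intro ν' g' s hmem hs heq
      apply htA
      simp only [A, Set.mem_iUnion]
      refine ⟨(m, ν', g'), hmem, s, hs, ?_, ?_⟩
      · rintro rfl
        exact hν _ _ hmem
      · simp only
        linarith
    · intro m'' ν' g' a b _ _ ha _
      exact absurd ha (hν _ _)
  have hgood2 : Good (insert (m', ν, (t, t ^ 2) - d) (insert (m, ν, (t, t ^ 2)) S)) := by
    refine hgood1.insert m' ν _ ?_ ?_ ?_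
    · intro g' hg'
      simp only [Finset.mem_insert, Prod.mk.injEq] at hg'
      rcases hg' with ⟨h, _, _⟩ | h
      · exact hmm h.symm
      · exact hν _ _ h
    · intro ν' g' s hmem hs heq
      simp only [Finset.mem_insert, Prod.mk.injEq] at hmem
      rcases hmem with ⟨h, _, _⟩ | hmem
      · exact hmm h.symm
      apply htB
      simp only [B, Set.mem_iUnion]
      refine ⟨(m', ν', g'), hmem, s, hs, ?_, ?_⟩
      · rintro rfl
        exact hν _ _ hmem
      · simp only
        rw [icpt_sub] at heq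
        linarith
    · intro m'' ν' g' a b hm'' hmem ha hb heq
      simp only [Finset.mem_insert, Prod.mk.injEq] at hmem ha hb
      rcases ha with ⟨hm, -, rfl⟩ | ha
      · subst hm
        rcases hmem with ⟨h, _, _⟩ | hmem
        · exact hmm h.symm
        rcases hb with ⟨_, rfl, _⟩ | hb
        · exact hν _ _ hmem
        · apply hdone ν' b g' hb hmem
          have h3 := heq
          have : b - g' = d := by
            have h4 : (t, t ^ 2) - d - g' = ((t, t ^ 2) : V) - b := heq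
            have h5 : b - g' = ((t, t ^ 2) : V) - g' - ((t, t ^ 2) - b) := by abel
            rw [h5, ← h4]; abel
          exact this
      · exact absurd ha (hν _ _)
  refine ⟨_, hgood2, ?_, ν, (t, t ^ 2), (t, t ^ 2) - d, ?_, ?_, ?_⟩
  · exact (Finset.subset_insert _ _).trans (Finset.subset_insert _ _)
  · exact Finset.mem_insert_of_mem (Finset.mem_insert_self _ _)
  · exact Finset.mem_insert_self _ _
  · abel

/-- Task 3: the graph of `f m` meets every twisted line. -/
lemma task3 {S : Finset (ℕ × V × V)} (hS : Good S) (m : ℕ) (s : Option ℚ) (β c : ℚ) :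
    ∃ S', Good S' ∧ S ⊆ S' ∧ ∃ ν g, (m, ν, g) ∈ S' ∧ icpt s ν = β ∧ icpt s g - tw s ν = c := by
  by_cases hdone : ∃ ν g, (m, ν, g) ∈ S ∧ icpt s ν = β ∧ icpt s g - tw s ν = c
  · exact ⟨S, hS, subset_rfl, hdone⟩
  push Not at hdone
  obtain ⟨ν, hνβ, hν⟩ := exists_fresh S s β
  let A : Set ℚ := ⋃ x ∈ (S : Set (ℕ × V × V)), {t : ℚ | ∃ s', s' ≠ s ∧ icpt s' ν = icpt s' x.2.1 ∧
    ν ≠ x.2.1 ∧ icpt s' (lp s (c + tw s ν) t) = icpt s' x.2.2 - tw s' x.2.1 + tw s' ν}
  have hA : A.Finite := by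
    refine Set.Finite.biUnion S.finite_toSet ?_
    intro x _
    by_cases hx : ν = x.2.1
    · simp [hx]
    · obtain ⟨s₀, hs₀⟩ := exists_slope ν x.2.1
      by_cases hss : s₀ = s
      · convert Set.finite_empty
        ext t
        simp only [Set.mem_setOf_eq, Set.mem_empty_iff_false, iff_false]
        rintro ⟨s', hs', h1, -, -⟩
        exact hs' ((slope_unique hx h1 hs₀).trans hss)
      · refine (finite_lp hss (c + tw s ν) (icpt s₀ x.2.2 - tw s₀ x.2.1 + tw s₀ ν)).subset ?_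
        rintro t ⟨s', -, hs', -, ht⟩
        have : s' = s₀ := slope_unique hx hs' hs₀
        subst this
        exact ht
  obtain ⟨t, htA, -⟩ := exists_avoid A ∅ hA Set.finite_empty
  have hgood : Good (insert (m, ν, lp s (c + tw s ν) t) S) := by
    refine hS.insert m ν _ (hν m) ?_ ?_
    · intro ν' g' s' hmem hs heq
      by_cases hss : s' = s
      · subst hss
        apply hdone ν' g' hmem
        · rw [← hs, hνβ]
        · rw [← heq, icpt_lp]; ring
      · apply htA
        simp only [A, Set.mem_iUnion]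
        refine ⟨(m, ν', g'), hmem, s', hss, hs, ?_, ?_⟩
        · rintro rfl
          exact hν _ _ hmem
        · simp only
          linarith
    · intro m'' ν' g' a b _ _ ha _
      exact absurd ha (hν _ _)
  refine ⟨_, hgood, Finset.subset_insert _ _, ν, _, Finset.mem_insert_self _ _, hνβ, ?_⟩
  rw [icpt_lp]; ring

/-- Task 4: two points not on a twisted line are joined. -/
lemma task4 {S : Finset (ℕ × V × V)} (hS : Good S) (ν ν' d : V) (hne : ν ≠ ν')
    (hd : ∀ s, icpt s ν = icpt s ν' → icpt s d ≠ tw s ν - tw s ν') :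
    ∃ S', Good S' ∧ S ⊆ S' ∧ ∃ m g g', (m, ν, g) ∈ S' ∧ (m, ν', g') ∈ S' ∧ g - g' = d := by
  by_cases hdone : ∃ m g g', (m, ν, g) ∈ S ∧ (m, ν', g') ∈ S ∧ g - g' = d
  · exact ⟨S, hS, subset_rfl, hdone⟩
  push Not at hdone
  obtain ⟨m, hm⟩ := Infinite.exists_notMem_finset (S.image (fun x => x.1))
  have hm' : ∀ μ g, (m, μ, g) ∉ S := by
    intro μ g hmem
    exact hm (Finset.mem_image.mpr ⟨_, hmem, rfl⟩)
  have hgood1 : Good (insert (m, ν', 0) S) := by
    refine hS.insert m ν' 0 (hm' ν') ?_ ?_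
    · intro ν'' g' s hmem
      exact absurd hmem (hm' _ _)
    · intro m'' ν'' g' a b _ hmem
      exact absurd hmem (hm' _ _)
  have hgood2 : Good (insert (m, ν, d) (insert (m, ν', 0) S)) := by
    refine hgood1.insert m ν d ?_ ?_ ?_
    · intro g' hg'
      simp only [Finset.mem_insert, Prod.mk.injEq] at hg'
      rcases hg' with ⟨_, h, _⟩ | h
      · exact hne h
      · exact hm' _ _ h
    · intro ν'' g' s hmem hs heq
      simp only [Finset.mem_insert, Prod.mk.injEq] at hmem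
      rcases hmem with ⟨_, rfl, rfl⟩ | hmem
      · apply hd s hs
        rw [icpt_zero] at heq
        linarith
      · exact hm' _ _ hmem
    · intro m'' ν'' g' a b hm'' hmem ha hb heq
      simp only [Finset.mem_insert, Prod.mk.injEq] at hmem ha hb
      rcases hmem with ⟨_, rfl, rfl⟩ | hmem
      · rcases ha with ⟨h, _, _⟩ | ha
        · exact hm'' h
        rcases hb with ⟨h, _, _⟩ | hb
        · exact hm'' h
        apply hdone m'' a b ha hb
        rw [← heq]; abel
      · exact hm' _ _ hmem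
  refine ⟨_, hgood2, ?_, m, d, 0, ?_, ?_, ?_⟩
  · exact (Finset.subset_insert _ _).trans (Finset.subset_insert _ _)
  · exact Finset.mem_insert_self _ _
  · exact Finset.mem_insert_of_mem (Finset.mem_insert_self _ _)
  · abel

/-- The type of conditions. -/
def Cond : Type := {S : Finset (ℕ × V × V) // Good S}

instance : Preorder Cond where
  le a b := a.1 ⊆ b.1
  le_refl a := subset_rfl
  le_trans a b c h h' := h.trans h'

/-- Index type of tasks. -/
abbrev Task : Type :=
  (ℕ × V) ⊕ (ℕ × ℕ × V) ⊕ (ℕ × Option ℚ × ℚ × ℚ) ⊕ (V × V × V)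

/-- The set of conditions fulfilling a task. -/
def taskSet : Task → Set Cond
  | .inl (m, ν) => {S | ∃ g, (m, ν, g) ∈ S.1}
  | .inr (.inl (m, m', d)) => {S | m ≠ m' → ∃ ν g h, (m, ν, g) ∈ S.1 ∧ (m', ν, h) ∈ S.1 ∧ g - h = d}
  | .inr (.inr (.inl (m, s, β, c))) =>
      {S | ∃ ν g, (m, ν, g) ∈ S.1 ∧ icpt s ν = β ∧ icpt s g - tw s ν = c}
  | .inr (.inr (.inr (ν, ν', d))) =>
      {S | ν ≠ ν' → (∀ s, icpt s ν = icpt s ν' → icpt s d ≠ tw s ν - tw s ν') →
        ∃ m g g', (m, ν, g) ∈ S.1 ∧ (m, ν', g') ∈ S.1 ∧ g - g' = d}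

lemma taskSet_cofinal (t : Task) : IsCofinal (taskSet t) := by
  intro S
  rcases t with ⟨m, ν⟩ | ⟨m, m', d⟩ | ⟨m, s, β, c⟩ | ⟨ν, ν', d⟩
  · obtain ⟨S', h1, h2, h3⟩ := task1 S.2 m ν
    exact ⟨⟨S', h1⟩, h3, h2⟩
  · by_cases h : m = m'
    · exact ⟨S, fun h' => absurd h h', le_rfl⟩
    · obtain ⟨S', h1, h2, h3⟩ := task2 S.2 m m' h d
      exact ⟨⟨S', h1⟩, fun _ => h3, h2⟩
  · obtain ⟨S', h1, h2, h3⟩ := task3 S.2 m s β c
    exact ⟨⟨S', h1⟩, h3, h2⟩
  · by_cases h : ν ≠ ν' ∧ ∀ s, icpt s ν = icpt s ν' → icpt s d ≠ tw s ν - tw s ν'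
    · obtain ⟨S', h1, h2, h3⟩ := task4 S.2 ν ν' d h.1 h.2
      exact ⟨⟨S', h1⟩, fun _ _ => h3, h2⟩
    · exact ⟨S, fun h1 h2 => absurd ⟨h1, h2⟩ h, le_rfl⟩

/-- The functions whose graphs are the curved lines. -/
theorem exists_curves : ∃ f : ℕ → V → V,
    (∀ m ν ν' s, ν ≠ ν' → icpt s ν = icpt s ν' →
      icpt s (f m ν) - tw s ν ≠ icpt s (f m ν') - tw s ν') ∧
    (∀ m m' ν ν', m ≠ m' → ν ≠ ν' → f m ν - f m ν' ≠ f m' ν - f m' ν') ∧
    (∀ m m' d, m ≠ m' → ∃ ν, f m ν - f m' ν = d) ∧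
    (∀ m s β c, ∃ ν, icpt s ν = β ∧ icpt s (f m ν) - tw s ν = c) ∧
    (∀ ν ν' d, ν ≠ ν' → (∀ s, icpt s ν = icpt s ν' → icpt s d ≠ tw s ν - tw s ν') →
      ∃ m, f m ν - f m ν' = d) := by
  classical
  let 𝒟 : Task → Order.Cofinal Cond := fun t => ⟨taskSet t, taskSet_cofinal t⟩
  let S0 : Cond := ⟨∅, Good.empty⟩
  let I := Order.idealOfCofinals S0 𝒟
  have hI : ∀ t, ∃ x, x ∈ taskSet t ∧ x ∈ I := fun t =>
    Order.cofinal_meets_idealOfCofinals S0 𝒟 t
  have hdir : ∀ x ∈ I, ∀ y ∈ I, ∃ z ∈ I, x ≤ z ∧ y ≤ z := fun x hx y hy => I.directed x hx y hy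
  have hex : ∀ m ν, ∃ g, ∃ x : Cond, x ∈ I ∧ (m, ν, g) ∈ x.1 := by
    intro m ν
    obtain ⟨x, ⟨g, hg⟩, hx⟩ := hI (.inl (m, ν))
    exact ⟨g, x, hx, hg⟩
  choose f hf using hex
  have huniq : ∀ m ν g (x : Cond), x ∈ I → (m, ν, g) ∈ x.1 → f m ν = g := by
    intro m ν g x hx hg
    obtain ⟨y, hy, hfy⟩ := hf m ν
    obtain ⟨z, -, hxz, hyz⟩ := hdir x hx y hy
    exact z.2.func m ν _ _ (hyz hfy) (hxz hg)
  have hcommon2 : ∀ m ν m' ν', ∃ x : Cond, x ∈ I ∧ (m, ν, f m ν) ∈ x.1 ∧
      (m', ν', f m' ν') ∈ x.1 := by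
    intro m ν m' ν'
    obtain ⟨x, hx, hfx⟩ := hf m ν
    obtain ⟨y, hy, hfy⟩ := hf m' ν'
    obtain ⟨z, hz, hxz, hyz⟩ := hdir x hx y hy
    exact ⟨z, hz, hxz hfx, hyz hfy⟩
  refine ⟨f, ?_, ?_, ?_, ?_, ?_⟩
  · intro m ν ν' s hne hs
    obtain ⟨x, -, h1, h2⟩ := hcommon2 m ν m ν'
    exact x.2.avoid _ _ _ _ _ _ h1 h2 hne hs
  · intro m m' ν ν' hm hν
    obtain ⟨x, hx, h1, h2⟩ := hcommon2 m ν m ν'
    obtain ⟨y, hy, h3, h4⟩ := hcommon2 m' ν m' ν'
    obtain ⟨z, -, hxz, hyz⟩ := hdir x hx y hy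
    exact z.2.diff _ _ _ _ _ _ _ _ hm hν (hxz h1) (hxz h2) (hyz h3) (hyz h4)
  · intro m m' d hm
    obtain ⟨x, hx1, hx⟩ := hI (.inr (.inl (m, m', d)))
    obtain ⟨ν, g, h, hg, hh, hd⟩ := hx1 hm
    refine ⟨ν, ?_⟩
    rw [huniq _ _ _ x hx hg, huniq _ _ _ x hx hh, hd]
  · intro m s β c
    obtain ⟨x, ⟨ν, g, hg, h1, h2⟩, hx⟩ := hI (.inr (.inr (.inl (m, s, β, c))))
    refine ⟨ν, h1, ?_⟩
    rw [huniq _ _ _ x hx hg, h2]
  · intro ν ν' d hne hd
    obtain ⟨x, hx1, hx⟩ := hI (.inr (.inr (.inr (ν, ν', d))))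
    obtain ⟨m, g, g', hg, hg', h⟩ := hx1 hne hd
    refine ⟨m, ?_⟩
    rw [huniq _ _ _ x hx hg, huniq _ _ _ x hx hg', h]

end Pool.Agent.MP_da03c4_co
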