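import Mathlib
import Pool.Agent.Lib.MP_da03c4_co.Greedy
import Pool.Agent.Lib.MP_da03c4_co.Defs

/-!
# The counterexample plane
-/

namespace Pool.Agent.MP_da03c4_co

open Configuration

/-- the curved lines, chosen once and for all -/
noncomputable def crv : ℕ → V → V := exists_curves.choose

lemma crv_avoid (m : ℕ) (ν ν' : V) (s : Option ℚ) (h : ν ≠ ν') (hs : icpt s ν = icpt s ν') :
    icpt s (crv m ν) - tw s ν ≠ icpt s (crv m ν') - tw s ν' :=
  exists_curves.choose_spec.1 m ν ν' s h hs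

lemma crv_diff (m m' : ℕ) (ν ν' : V) (hm : m ≠ m') (h : ν ≠ ν') :
    crv m ν - crv m ν' ≠ crv m' ν - crv m' ν' :=
  exists_curves.choose_spec.2.1 m m' ν ν' hm h

lemma crv_meet (m m' : ℕ) (d : V) (hm : m ≠ m') : ∃ ν, crv m ν - crv m' ν = d :=
  exists_curves.choose_spec.2.2.1 m m' d hm

lemma crv_line (m : ℕ) (s : Option ℚ) (β c : ℚ) :
    ∃ ν, icpt s ν = β ∧ icpt s (crv m ν) - tw s ν = c :=
  exists_curves.choose_spec.2.2.2.1 m s β c

lemma crv_join (ν ν' d : V) (h : ν ≠ ν')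
    (hd : ∀ s, icpt s ν = icpt s ν' → icpt s d ≠ tw s ν - tw s ν') :
    ∃ m, crv m ν - crv m ν' = d :=
  exists_curves.choose_spec.2.2.2.2 ν ν' d h hd

/-- The points of the plane. -/
inductive Pt : Type
  | aff (ν ρ : V)
  | inf (s : Option ℚ)
  | infm (m : ℕ)

/-- The lines of the plane. -/
inductive Ln : Type
  | kl (s : Option ℚ) (β α : ℚ)
  | fl (m : ℕ) (g : V)
  | W

/-- incidence -/
def inc : Pt → Ln → Prop
  | .aff ν ρ, .kl s β α => icpt s ν = β ∧ icpt s ρ - tw s ν = α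
  | .aff ν ρ, .fl m g => ρ = crv m ν + g
  | .aff _ _, .W => False
  | .inf s, .kl s' _ _ => s = s'
  | .inf _, .fl _ _ => False
  | .inf _, .W => True
  | .infm _, .kl _ _ _ => False
  | .infm m, .fl m' _ => m = m'
  | .infm _, .W => True

instance : Membership Pt Ln := ⟨fun l p => inc p l⟩

@[simp] lemma aff_mem_kl {ν ρ : V} {s : Option ℚ} {β α : ℚ} :
    Pt.aff ν ρ ∈ Ln.kl s β α ↔ icpt s ν = β ∧ icpt s ρ - tw s ν = α := Iff.rfl
@[simp] lemma aff_mem_fl {ν ρ : V} {m : ℕ} {g : V} :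
    Pt.aff ν ρ ∈ Ln.fl m g ↔ ρ = crv m ν + g := Iff.rfl
@[simp] lemma aff_mem_W {ν ρ : V} : Pt.aff ν ρ ∈ Ln.W ↔ False := Iff.rfl
@[simp] lemma inf_mem_kl {s s' : Option ℚ} {β α : ℚ} :
    Pt.inf s ∈ Ln.kl s' β α ↔ s = s' := Iff.rfl
@[simp] lemma inf_mem_fl {s : Option ℚ} {m : ℕ} {g : V} :
    Pt.inf s ∈ Ln.fl m g ↔ False := Iff.rfl
@[simp] lemma inf_mem_W {s : Option ℚ} : Pt.inf s ∈ Ln.W ↔ True := Iff.rfl
@[simp] lemma infm_mem_kl {m : ℕ} {s' : Option ℚ} {β α : ℚ} :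
    Pt.infm m ∈ Ln.kl s' β α ↔ False := Iff.rfl
@[simp] lemma infm_mem_fl {m m' : ℕ} {g : V} :
    Pt.infm m ∈ Ln.fl m' g ↔ m = m' := Iff.rfl
@[simp] lemma infm_mem_W {m : ℕ} : Pt.infm m ∈ Ln.W ↔ True := Iff.rfl

lemma tw_zero (s : Option ℚ) : tw s 0 = 0 := by
  unfold tw
  rw [if_neg]
  rintro ⟨-, h⟩
  have := congrArg Prod.fst h
  simp at this

/-- join of two affine points -/
lemma join_aff (ν ρ ν' ρ' : V) : ∃ l : Ln, Pt.aff ν ρ ∈ l ∧ Pt.aff ν' ρ' ∈ l := by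
  by_cases hν : ν = ν'
  · subst hν
    obtain ⟨s, hs⟩ := exists_slope ρ ρ'
    refine ⟨Ln.kl s (icpt s ν) (icpt s ρ - tw s ν), ⟨rfl, rfl⟩, ⟨rfl, ?_⟩⟩
    rw [hs]
  · obtain ⟨s, hs⟩ := exists_slope ν ν'
    by_cases h : icpt s ρ - tw s ν = icpt s ρ' - tw s ν'
    · exact ⟨Ln.kl s (icpt s ν) (icpt s ρ - tw s ν), ⟨rfl, rfl⟩, ⟨hs.symm, h.symm⟩⟩
    · obtain ⟨m, hm⟩ := crv_join ν ν' (ρ - ρ') hν (by
        intro s' hs' heq
        have : s' = s := slope_unique hν hs' hs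
        subst this
        rw [icpt_sub] at heq
        apply h
        linarith)
      refine ⟨Ln.fl m (ρ - crv m ν), ?_, ?_⟩
      · simp
      · simp only [aff_mem_fl]
        have : crv m ν = ρ - ρ' + crv m ν' := sub_eq_iff_eq_add.mp hm
        rw [this]; abel

lemma exists_join_pt (p q : Pt) : ∃ l : Ln, p ∈ l ∧ q ∈ l := by
  rcases p with ⟨ν, ρ⟩ | s | m <;> rcases q with ⟨ν', ρ'⟩ | s' | m'
  · exact join_aff ν ρ ν' ρ'
  · exact ⟨Ln.kl s' (icpt s' ν) (icpt s' ρ - tw s' ν), ⟨rfl, rfl⟩, rfl⟩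
  · exact ⟨Ln.fl m' (ρ - crv m' ν), by simp, rfl⟩
  · exact ⟨Ln.kl s (icpt s ν') (icpt s ρ' - tw s ν'), rfl, ⟨rfl, rfl⟩⟩
  · exact ⟨Ln.W, trivial, trivial⟩
  · exact ⟨Ln.W, trivial, trivial⟩
  · exact ⟨Ln.fl m (ρ' - crv m ν'), rfl, by simp⟩
  · exact ⟨Ln.W, trivial, trivial⟩
  · exact ⟨Ln.W, trivial, trivial⟩

lemma kl_fl_meet (s : Option ℚ) (β α : ℚ) (m : ℕ) (g : V) :
    ∃ p : Pt, p ∈ Ln.kl s β α ∧ p ∈ Ln.fl m g := by
  obtain ⟨ν, h1, h2⟩ := crv_line m s β (α - icpt s g)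
  refine ⟨Pt.aff ν (crv m ν + g), ⟨h1, ?_⟩, rfl⟩
  rw [icpt_add]; linarith

lemma exists_meet_ln (l l' : Ln) : ∃ p : Pt, p ∈ l ∧ p ∈ l' := by
  rcases l with ⟨s, β, α⟩ | ⟨m, g⟩ | _ <;> rcases l' with ⟨s', β', α'⟩ | ⟨m', g'⟩ | _
  · by_cases h : s = s'
    · exact ⟨Pt.inf s, rfl, h⟩
    · obtain ⟨ν, h1, h2⟩ := exists_icpt h β β'
      obtain ⟨ρ, h3, h4⟩ := exists_icpt h (α + tw s ν) (α' + tw s' ν)
      exact ⟨Pt.aff ν ρ, ⟨h1, by rw [h3]; ring⟩, ⟨h2, by rw [h4]; ring⟩⟩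
  · exact kl_fl_meet s β α m' g'
  · exact ⟨Pt.inf s, rfl, trivial⟩
  · obtain ⟨p, h1, h2⟩ := kl_fl_meet s' β' α' m g
    exact ⟨p, h2, h1⟩
  · by_cases h : m = m'
    · exact ⟨Pt.infm m, rfl, h⟩
    · obtain ⟨ν, hν⟩ := crv_meet m m' (g' - g) h
      refine ⟨Pt.aff ν (crv m ν + g), rfl, ?_⟩
      simp only [aff_mem_fl]
      have : crv m ν = g' - g + crv m' ν := sub_eq_iff_eq_add.mp hν
      rw [this]; abel
  · exact ⟨Pt.infm m, rfl, trivial⟩
  · exact ⟨Pt.inf s', trivial, rfl⟩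
  · exact ⟨Pt.infm m', trivial, rfl⟩
  · exact ⟨Pt.inf none, trivial, trivial⟩

/-- two affine points on two lines -/
lemma aff_aff (ν ρ ν' ρ' : V) (l l' : Ln) (h1 : Pt.aff ν ρ ∈ l) (h2 : Pt.aff ν' ρ' ∈ l)
    (h3 : Pt.aff ν ρ ∈ l') (h4 : Pt.aff ν' ρ' ∈ l') :
    Pt.aff ν ρ = Pt.aff ν' ρ' ∨ l = l' := by
  -- a point of two curves, or of a curve and a straight line
  have key : ∀ (s : Option ℚ) (β α : ℚ) (m : ℕ) (g : V), Pt.aff ν ρ ∈ Ln.kl s β α →
      Pt.aff ν' ρ' ∈ Ln.kl s β α → Pt.aff ν ρ ∈ Ln.fl m g → Pt.aff ν' ρ' ∈ Ln.fl m g →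
      Pt.aff ν ρ = Pt.aff ν' ρ' := by
    intro s β α m g h1 h2 h3 h4
    simp only [aff_mem_kl, aff_mem_fl] at h1 h2 h3 h4
    by_cases hν : ν = ν'
    · subst hν; rw [h3, h4]
    · exfalso
      apply crv_avoid m ν ν' s hν (h1.1.trans h2.1.symm)
      have e1 := h1.2
      have e2 := h2.2
      rw [h3, icpt_add] at e1
      rw [h4, icpt_add] at e2
      linarith
  rcases l with ⟨s, β, α⟩ | ⟨m, g⟩ | _ <;> rcases l' with ⟨s', β', α'⟩ | ⟨m', g'⟩ | _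
  · simp only [aff_mem_kl] at h1 h2 h3 h4
    by_cases hs : s = s'
    · right
      subst hs
      rw [← h1.1, ← h3.1, ← h1.2, ← h3.2]
    · left
      have hν : ν = ν' := eq_of_icpt hs (h1.1.trans h2.1.symm) (h3.1.trans h4.1.symm)
      subst hν
      have hρ : ρ = ρ' := by
        apply eq_of_icpt hs
        · have := h1.2.trans h2.2.symm; linarith
        · have := h3.2.trans h4.2.symm; linarith
      rw [hρ]
  · exact Or.inl (key s β α m' g' h1 h2 h3 h4)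
  · exact absurd h3 (by simp)
  · exact Or.inl (key s' β' α' m g h3 h4 h1 h2)
  · simp only [aff_mem_fl] at h1 h2 h3 h4
    by_cases hm : m = m'
    · right
      subst hm
      have : g = g' := by
        have := h1.symm.trans h3
        exact add_left_cancel this
      rw [this]
    · left
      by_cases hν : ν = ν'
      · subst hν; rw [h1, h2]
      · exfalso
        apply crv_diff m m' ν ν' hm hν
        have e1 : crv m ν - crv m ν' = ρ - ρ' := by rw [h1, h2]; abel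
        have e2 : crv m' ν - crv m' ν' = ρ - ρ' := by rw [h3, h4]; abel
        rw [e1, e2]
  · exact absurd h3 (by simp)
  · exact absurd h1 (by simp)
  · exact absurd h1 (by simp)
  · exact absurd h1 (by simp)

/-- an affine point and a point at infinity on two lines -/
lemma aff_inf (ν ρ : V) (q : Pt) (hq : q ∈ Ln.W) (l l' : Ln) (h1 : Pt.aff ν ρ ∈ l) (h2 : q ∈ l)
    (h3 : Pt.aff ν ρ ∈ l') (h4 : q ∈ l') : l = l' := by
  rcases q with ⟨ν', ρ'⟩ | s | m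
  · exact absurd hq (by simp)
  · rcases l with ⟨s₁, β, α⟩ | ⟨m, g⟩ | _ <;> rcases l' with ⟨s', β', α'⟩ | ⟨m', g'⟩ | _ <;>
      simp_all
  · rcases l with ⟨s₁, β, α⟩ | ⟨m, g⟩ | _ <;> rcases l' with ⟨s', β', α'⟩ | ⟨m', g'⟩ | _ <;>
      simp_all

lemma eq_or_eq_pt {p q : Pt} {l l' : Ln} (h1 : p ∈ l) (h2 : q ∈ l) (h3 : p ∈ l') (h4 : q ∈ l') :
    p = q ∨ l = l' := by
  rcases p with ⟨ν, ρ⟩ | s | m
  · rcases q with ⟨ν', ρ'⟩ | s' | m'
    · exact aff_aff _ _ _ _ _ _ h1 h2 h3 h4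
    · exact Or.inr (aff_inf ν ρ _ (by simp) l l' h1 h2 h3 h4)
    · exact Or.inr (aff_inf ν ρ _ (by simp) l l' h1 h2 h3 h4)
  · rcases q with ⟨ν', ρ'⟩ | s' | m'
    · exact Or.inr (aff_inf ν' ρ' _ (by simp) l l' h2 h1 h4 h3)
    · rcases l with ⟨s₁, β, α⟩ | ⟨m, g⟩ | _ <;> rcases l' with ⟨s₂, β', α'⟩ | ⟨m', g'⟩ | _ <;>
        simp_all
    · rcases l with ⟨s₁, β, α⟩ | ⟨m, g⟩ | _ <;> rcases l' with ⟨s₂, β', α'⟩ | ⟨m', g'⟩ | _ <;>
        simp_all
  · rcases q with ⟨ν', ρ'⟩ | s' | m'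
    · exact Or.inr (aff_inf ν' ρ' _ (by simp) l l' h2 h1 h4 h3)
    · rcases l with ⟨s₁, β, α⟩ | ⟨m, g⟩ | _ <;> rcases l' with ⟨s₂, β', α'⟩ | ⟨m', g'⟩ | _ <;>
        simp_all
    · rcases l with ⟨s₁, β, α⟩ | ⟨m, g⟩ | _ <;> rcases l' with ⟨s₂, β', α'⟩ | ⟨m', g'⟩ | _ <;>
        simp_all

/-- The projective plane. -/
noncomputable instance plane : ProjectivePlane Pt Ln where
  exists_point l := by
    rcases l with ⟨s, β, α⟩ | ⟨m, g⟩ | _
    · exact ⟨Pt.infm 0, by simp⟩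
    · exact ⟨Pt.inf none, by simp⟩
    · exact ⟨Pt.aff 0 0, by simp⟩
  exists_line p := by
    rcases p with ⟨ν, ρ⟩ | s | m
    · exact ⟨Ln.W, by simp⟩
    · exact ⟨Ln.fl 0 0, by simp⟩
    · exact ⟨Ln.kl none 0 0, by simp⟩
  eq_or_eq := eq_or_eq_pt
  mkPoint {l₁ l₂} _ := (exists_meet_ln l₁ l₂).choose
  mkPoint_ax {l₁ l₂} _ := (exists_meet_ln l₁ l₂).choose_spec
  mkLine {p₁ p₂} _ := (exists_join_pt p₁ p₂).choose
  mkLine_ax {p₁ p₂} _ := (exists_join_pt p₁ p₂).choose_spec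
  exists_config := by
    refine ⟨Pt.aff 0 0, Pt.inf (some 0), Pt.inf none, Ln.kl (some 1) 0 0, Ln.W,
      Ln.kl (some 0) 0 1, ?_⟩
    simp [tw]

/-- The Baer subplane: the affine plane over `ℚ` at `ν = 0`. -/
def Q : Subplane Pt Ln where
  pts := {p | (∃ ρ, p = Pt.aff 0 ρ) ∨ (∃ s, p = Pt.inf s)}
  lns := {l | (∃ s α, l = Ln.kl s 0 α) ∨ l = Ln.W}
  join_mem := by
    rintro p q l (⟨ρ, rfl⟩ | ⟨s, rfl⟩) (⟨ρ', rfl⟩ | ⟨s', rfl⟩) hne h1 h2
    · rcases l with ⟨s, β, α⟩ | ⟨m, g⟩ | _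
      · simp only [aff_mem_kl, icpt_zero] at h1
        rw [← h1.1]
        exact Or.inl ⟨s, α, rfl⟩
      · exfalso
        simp only [aff_mem_fl] at h1 h2
        apply hne
        rw [h1, h2]
      · exact Or.inr rfl
    · rcases l with ⟨s, β, α⟩ | ⟨m, g⟩ | _
      · simp only [aff_mem_kl, icpt_zero] at h1
        rw [← h1.1]
        exact Or.inl ⟨s, α, rfl⟩
      · exact absurd h2 (by simp)
      · exact Or.inr rfl
    · rcases l with ⟨s, β, α⟩ | ⟨m, g⟩ | _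
      · simp only [aff_mem_kl, icpt_zero] at h2
        rw [← h2.1]
        exact Or.inl ⟨s, α, rfl⟩
      · exact absurd h1 (by simp)
      · exact Or.inr rfl
    · rcases l with ⟨s₁, β, α⟩ | ⟨m, g⟩ | _
      · exfalso
        simp only [inf_mem_kl] at h1 h2
        exact hne (by rw [h1, h2])
      · exact absurd h1 (by simp)
      · exact Or.inr rfl
  meet_mem := by
    rintro l l' p (⟨s, α, rfl⟩ | rfl) (⟨s', α', rfl⟩ | rfl) hne h1 h2
    · rcases p with ⟨ν, ρ⟩ | s'' | m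
      · simp only [aff_mem_kl] at h1 h2
        left
        refine ⟨ρ, ?_⟩
        have hss : s ≠ s' := by
          rintro rfl
          apply hne
          rw [← h1.2, ← h2.2]
        have : ν = 0 := eq_of_icpt hss (by rw [h1.1, icpt_zero]) (by rw [h2.1, icpt_zero])
        rw [this]
      · exact Or.inr ⟨s'', rfl⟩
      · exact absurd h1 (by simp)
    · rcases p with ⟨ν, ρ⟩ | s'' | m
      · exact absurd h2 (by simp)
      · exact Or.inr ⟨s'', rfl⟩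
      · exact absurd h1 (by simp)
    · rcases p with ⟨ν, ρ⟩ | s'' | m
      · exact absurd h1 (by simp)
      · exact Or.inr ⟨s'', rfl⟩
      · exact absurd h2 (by simp)
    · exact absurd rfl hne
  quadrangle := by
    refine ⟨Pt.aff 0 0, Pt.aff 0 (1, 1), Pt.inf (some 0), Pt.inf none, Or.inl ⟨_, rfl⟩,
      Or.inl ⟨_, rfl⟩, Or.inr ⟨_, rfl⟩, Or.inr ⟨_, rfl⟩, ?_⟩
    intro l
    rcases l with ⟨s, β, α⟩ | ⟨m, g⟩ | _
    · refine ⟨?_, ?_, ?_, ?_⟩
      · rintro ⟨h1, h2, h3⟩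
        simp only [inf_mem_kl] at h3
        subst h3
        simp only [aff_mem_kl, icpt_some] at h1 h2
        have := h1.2.trans h2.2.symm
        norm_num at this
        linarith
      · rintro ⟨h1, h2, h3⟩
        simp only [inf_mem_kl] at h3
        subst h3
        simp only [aff_mem_kl, icpt_none] at h1 h2
        have := h1.2.trans h2.2.symm
        norm_num at this
        linarith
      · rintro ⟨h1, h2, h3⟩
        simp only [inf_mem_kl] at h2 h3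
        rw [← h2] at h3
        exact absurd h3 (by simp)
      · rintro ⟨h1, h2, h3⟩
        simp only [inf_mem_kl] at h2 h3
        rw [← h2] at h3
        exact absurd h3 (by simp)
    · simp
    · simp

lemma mem_Q_aff {p : Pt} (hp : p ∈ Q.pts) (hW : p ∉ Ln.W) : ∃ ρ, p = Pt.aff 0 ρ := by
  rcases hp with h | ⟨s, rfl⟩
  · exact h
  · exact absurd trivial hW

lemma Q_isBaer : Q.IsBaer := by
  constructor
  · intro p
    rcases p with ⟨ν, ρ⟩ | s | m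
    · obtain ⟨s, hs⟩ := exists_slope ν 0
      rw [icpt_zero] at hs
      exact ⟨Ln.kl s 0 (icpt s ρ - tw s ν), Or.inl ⟨_, _, rfl⟩, hs, rfl⟩
    · exact ⟨Ln.W, Or.inr rfl, trivial⟩
    · exact ⟨Ln.W, Or.inr rfl, trivial⟩
  · intro l
    rcases l with ⟨s, β, α⟩ | ⟨m, g⟩ | _
    · exact ⟨Pt.inf s, Or.inr ⟨_, rfl⟩, rfl⟩
    · exact ⟨Pt.aff 0 (crv m 0 + g), Or.inl ⟨_, rfl⟩, rfl⟩
    · exact ⟨Pt.inf none, Or.inr ⟨_, rfl⟩, trivial⟩

/-- translation on points -/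
def trPt (g : V) : Pt → Pt
  | .aff ν ρ => .aff ν (ρ + g)
  | .inf s => .inf s
  | .infm m => .infm m

/-- translation on lines -/
def trLn (g : V) : Ln → Ln
  | .kl s β α => .kl s β (α + icpt s g)
  | .fl m h => .fl m (h + g)
  | .W => .W

/-- The translations of the big plane. -/
def tr (g : V) : Collineation Pt Ln where
  pts :=
    { toFun := trPt g
      invFun := trPt (-g)
      left_inv := by rintro (⟨ν, ρ⟩ | s | m) <;> simp [trPt]
      right_inv := by rintro (⟨ν, ρ⟩ | s | m) <;> simp [trPt] }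
  lns :=
    { toFun := trLn g
      invFun := trLn (-g)
      left_inv := by
        rintro (⟨s, β, α⟩ | ⟨m, h⟩ | _)
        · have : icpt s (-g) = - icpt s g := by
            have := icpt_sub s 0 g
            rw [icpt_zero] at this
            simpa using this
          simp [trLn, this]
        · simp [trLn]
        · rfl
      right_inv := by
        rintro (⟨s, β, α⟩ | ⟨m, h⟩ | _)
        · have : icpt s (-g) = - icpt s g := by
            have := icpt_sub s 0 g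
            rw [icpt_zero] at this
            simpa using this
          simp [trLn, this]
        · simp [trLn]
        · rfl }
  mem_iff := by
    rintro (⟨ν, ρ⟩ | s | m) (⟨s', β, α⟩ | ⟨m', h⟩ | _)
    · simp only [Equiv.coe_fn_mk, trPt, trLn, aff_mem_kl, icpt_add]
      constructor
      · rintro ⟨h1, h2⟩; exact ⟨h1, by linarith⟩
      · rintro ⟨h1, h2⟩; exact ⟨h1, by linarith⟩
    · simp only [Equiv.coe_fn_mk, trPt, trLn, aff_mem_fl]
      rw [← add_assoc]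
      exact add_left_inj g
    · simp [trPt, trLn]
    · simp [trPt, trLn]
    · simp [trPt, trLn]
    · simp [trPt, trLn]
    · simp [trPt, trLn]
    · simp [trPt, trLn]
    · simp [trPt, trLn]

@[simp] lemma tr_pts (g : V) (p : Pt) : (tr g).pts p = trPt g p := rfl
@[simp] lemma tr_lns (g : V) (l : Ln) : (tr g).lns l = trLn g l := rfl

lemma tr_isTranslation (g : V) : IsTranslation Ln.W (tr g) := by
  constructor
  · intro p hp
    rcases p with ⟨ν, ρ⟩ | s | m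
    · exact absurd hp (by simp)
    · rfl
    · rfl
  · obtain ⟨s, hs⟩ := exists_slope g 0
    rw [icpt_zero] at hs
    refine ⟨Pt.inf s, trivial, ?_⟩
    intro l hl
    rcases l with ⟨s', β, α⟩ | ⟨m, h⟩ | _
    · simp only [inf_mem_kl] at hl
      subst hl
      simp [trLn, hs]
    · exact absurd hl (by simp)
    · rfl

lemma trPt_mem {g : V} {p : Pt} (hp : p ∈ Q.pts) : trPt g p ∈ Q.pts := by
  rcases hp with ⟨ρ, rfl⟩ | ⟨s, rfl⟩
  · exact Or.inl ⟨_, rfl⟩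
  · exact Or.inr ⟨_, rfl⟩

lemma trLn_mem {g : V} {l : Ln} (hl : l ∈ Q.lns) : trLn g l ∈ Q.lns := by
  rcases hl with ⟨s, α, rfl⟩ | rfl
  · exact Or.inl ⟨_, _, rfl⟩
  · exact Or.inr rfl

/-- The line `W` as a line of the subplane. -/
def WQ : Q.lns := ⟨Ln.W, Or.inr rfl⟩

/-- The translations of the Baer subplane. -/
def trQ (g : V) : Collineation Q.pts Q.lns where
  pts :=
    { toFun := fun p => ⟨trPt g p.1, trPt_mem p.2⟩
      invFun := fun p => ⟨trPt (-g) p.1, trPt_mem p.2⟩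
      left_inv := fun p => Subtype.ext ((tr g).pts.left_inv p.1)
      right_inv := fun p => Subtype.ext ((tr g).pts.right_inv p.1) }
  lns :=
    { toFun := fun l => ⟨trLn g l.1, trLn_mem l.2⟩
      invFun := fun l => ⟨trLn (-g) l.1, trLn_mem l.2⟩
      left_inv := fun l => Subtype.ext ((tr g).lns.left_inv l.1)
      right_inv := fun l => Subtype.ext ((tr g).lns.right_inv l.1) }
  mem_iff := fun p l => (tr g).mem_iff p.1 l.1

lemma trQ_isTranslation (g : V) : IsTranslation (P := Q.pts) (L := Q.lns) WQ (trQ g) := by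
  obtain ⟨h1, -⟩ := tr_isTranslation g
  constructor
  · intro p hp
    exact Subtype.ext (h1 p.1 hp)
  · obtain ⟨s, hs⟩ := exists_slope g 0
    rw [icpt_zero] at hs
    refine ⟨⟨Pt.inf s, Or.inr ⟨s, rfl⟩⟩, trivial, ?_⟩
    rintro ⟨l, hlQ⟩ hl
    apply Subtype.ext
    change trLn g l = l
    have hl' : Pt.inf s ∈ l := hl
    rcases l with ⟨s', β, α⟩ | ⟨m, h⟩ | _
    · simp only [inf_mem_kl] at hl'
      subst hl'
      simp [trLn, hs]
    · exact absurd hl' (by simp)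
    · rfl

lemma Q_translationPlane : IsTranslationPlane (P := Q.pts) (L := Q.lns) WQ := by
  rintro ⟨p, hpQ⟩ ⟨q, hqQ⟩ hp hq
  obtain ⟨ρ, rfl⟩ := mem_Q_aff hpQ hp
  obtain ⟨ρ', rfl⟩ := mem_Q_aff hqQ hq
  refine ⟨trQ (ρ' - ρ), trQ_isTranslation _, ?_⟩
  apply Subtype.ext
  change trPt (ρ' - ρ) (Pt.aff 0 ρ) = Pt.aff 0 ρ'
  simp [trPt]

/-- A map of `ℚ²` which preserves parallelism classes of lines and fixes the lines of one
direction is a translation. -/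
lemma eq_translation (T : V → V) (s₀ : Option ℚ) (h0 : ∀ ρ, icpt s₀ (T ρ) = icpt s₀ ρ)
    (h1 : ∀ s ρ ρ', icpt s ρ = icpt s ρ' → icpt s (T ρ) = icpt s (T ρ')) (ρ : V) :
    T ρ = ρ + T 0 := by
  have hg : icpt s₀ (T 0) = 0 := by rw [h0, icpt_zero]
  have step : ∀ a b : V, icpt s₀ a ≠ icpt s₀ b → T b = b + T 0 → T a = a + T 0 := by
    intro a b hab hb
    obtain ⟨s, hs⟩ := exists_slope a b
    have hss : s ≠ s₀ := by
      rintro rfl
      exact hab hs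
    apply eq_of_icpt hss
    · rw [h1 s a b hs, hb, icpt_add, icpt_add, hs]
    · rw [h0, icpt_add, hg, add_zero]
  by_cases h : icpt s₀ ρ = 0
  · obtain ⟨s₁, hs₁⟩ : ∃ s₁ : Option ℚ, s₁ ≠ s₀ := exists_ne s₀
    obtain ⟨q, hq, -⟩ := exists_icpt (Ne.symm hs₁) 1 0
    have hTq : T q = q + T 0 := by
      apply step q 0
      · rw [hq, icpt_zero]; exact one_ne_zero
      · simp
    apply step ρ q _ hTq
    rw [h, hq]; exact zero_ne_one
  · apply step ρ 0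
    · rwa [icpt_zero]
    · simp

/-- every translation of the subplane is a `trQ g` -/
lemma translation_eq (τ : Collineation Q.pts Q.lns)
    (hτ : IsTranslation (P := Q.pts) (L := Q.lns) WQ τ) :
    ∃ g : V, (∀ p : Q.pts, (τ.pts p : Pt) = trPt g p) ∧ (∀ l : Q.lns, (τ.lns l : Ln) = trLn g l) := by
  obtain ⟨hfix, ⟨c, hcQ⟩, hcW, hc⟩ := hτ
  -- the centre
  obtain ⟨s₀, rfl⟩ : ∃ s₀, c = Pt.inf s₀ := by
    rcases hcQ with ⟨ρ, rfl⟩ | h
    · exact absurd hcW (fun h => h)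
    · exact h
  -- τ fixes W
  have hW : τ.lns WQ = WQ := hc WQ trivial
  -- images of affine points are affine
  have haff : ∀ ρ : V, ∃ ρ' : V, (τ.pts ⟨Pt.aff 0 ρ, Or.inl ⟨ρ, rfl⟩⟩ : Pt) = Pt.aff 0 ρ' := by
    intro ρ
    apply mem_Q_aff (τ.pts _).2
    intro hmem
    have h1 : τ.pts ⟨Pt.aff 0 ρ, Or.inl ⟨ρ, rfl⟩⟩ ∈ τ.lns WQ := by
      rw [hW]; exact hmem
    have h2 := (τ.mem_iff _ _).mp h1
    exact h2
  choose T hT using haff
  have hT' : ∀ ρ, τ.pts ⟨Pt.aff 0 ρ, Or.inl ⟨ρ, rfl⟩⟩ = ⟨Pt.aff 0 (T ρ), Or.inl ⟨T ρ, rfl⟩⟩ :=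
    fun ρ => Subtype.ext (hT ρ)
  have hinf : ∀ s : Option ℚ, τ.pts ⟨Pt.inf s, Or.inr ⟨s, rfl⟩⟩ = ⟨Pt.inf s, Or.inr ⟨s, rfl⟩⟩ :=
    fun s => hfix _ trivial
  have htw : ∀ s, tw s 0 = 0 := tw_zero
  -- images of lines
  have hline : ∀ (s : Option ℚ) (α : ℚ), ∃ α' : ℚ,
      (τ.lns ⟨Ln.kl s 0 α, Or.inl ⟨s, α, rfl⟩⟩ : Ln) = Ln.kl s 0 α' := by
    intro s α
    have h1 : (⟨Pt.inf s, Or.inr ⟨s, rfl⟩⟩ : Q.pts) ∈
        τ.lns ⟨Ln.kl s 0 α, Or.inl ⟨s, α, rfl⟩⟩ := by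
      rw [← hinf s]
      exact (τ.mem_iff _ _).mpr rfl
    have h3 : τ.lns ⟨Ln.kl s 0 α, Or.inl ⟨s, α, rfl⟩⟩ ≠ WQ := by
      intro h
      have := τ.lns.injective (h.trans hW.symm)
      have := congrArg Subtype.val this
      simp [WQ] at this
    rcases (τ.lns ⟨Ln.kl s 0 α, Or.inl ⟨s, α, rfl⟩⟩).2 with ⟨s', α', h2⟩ | h2
    · refine ⟨α', ?_⟩
      have h4 : Pt.inf s ∈ (τ.lns ⟨Ln.kl s 0 α, Or.inl ⟨s, α, rfl⟩⟩ : Ln) := h1
      rw [h2] at h4
      simp only [inf_mem_kl] at h4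
      rw [h2, h4]
    · exact absurd (Subtype.ext h2) h3
  choose A hA using hline
  have hA' : ∀ s α, τ.lns ⟨Ln.kl s 0 α, Or.inl ⟨s, α, rfl⟩⟩ =
      ⟨Ln.kl s 0 (A s α), Or.inl ⟨s, A s α, rfl⟩⟩ := fun s α => Subtype.ext (hA s α)
  have hTA : ∀ s ρ, icpt s (T ρ) = A s (icpt s ρ) := by
    intro s ρ
    have h1 : (⟨Pt.aff 0 ρ, Or.inl ⟨ρ, rfl⟩⟩ : Q.pts) ∈
        (⟨Ln.kl s 0 (icpt s ρ), Or.inl ⟨s, _, rfl⟩⟩ : Q.lns) := by
      change Pt.aff 0 ρ ∈ Ln.kl s 0 (icpt s ρ)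
      simp [icpt_zero, htw]
    have h2 := (τ.mem_iff _ _).mpr h1
    rw [hT', hA'] at h2
    have h3 : Pt.aff 0 (T ρ) ∈ Ln.kl s 0 (A s (icpt s ρ)) := h2
    simp only [aff_mem_kl, htw, sub_zero] at h3
    exact h3.2
  have hcen : ∀ α, A s₀ α = α := by
    intro α
    have h1 := hc ⟨Ln.kl s₀ 0 α, Or.inl ⟨s₀, α, rfl⟩⟩ rfl
    rw [hA'] at h1
    have h2 := congrArg Subtype.val h1
    simp only [Ln.kl.injEq] at h2
    exact h2.2.2
  have hmain := eq_translation T s₀ (fun ρ => by rw [hTA, hcen])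
    (fun s ρ ρ' h => by rw [hTA, hTA, h])
  refine ⟨T 0, ?_, ?_⟩
  · rintro ⟨p, ⟨ρ, rfl⟩ | ⟨s, rfl⟩⟩
    · rw [hT']
      simp only [trPt]
      rw [hmain]
    · rw [hinf]; rfl
  · rintro ⟨l, ⟨s, α, rfl⟩ | rfl⟩
    · rw [hA']
      simp only [trLn]
      obtain ⟨ρ, hρ, -⟩ : ∃ ρ : V, icpt s ρ = α ∧ True := by
        obtain ⟨s₁, hs₁⟩ : ∃ s₁ : Option ℚ, s₁ ≠ s := exists_ne s
        obtain ⟨ρ, h1, -⟩ := exists_icpt (Ne.symm hs₁) α 0
        exact ⟨ρ, h1, trivial⟩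
      rw [← hρ, ← hTA, hmain ρ, icpt_add]
    · have := congrArg Subtype.val hW
      exact this

theorem isSemiTranslationPlane : IsSemiTranslationPlane Ln.W Q := by
  refine ⟨Or.inr rfl, Q_isBaer, Q_translationPlane, ?_⟩
  intro τ hτ
  obtain ⟨g, h1, h2⟩ := translation_eq τ hτ
  exact ⟨tr g, tr_isTranslation g, fun p => (h1 p).symm, fun l => (h2 l).symm⟩

/-- The frame. -/
def F : Frame (P := Pt) Ln.W where
  o := Pt.aff 0 0
  e := Pt.aff 0 (1, 1)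
  u := Pt.inf (some 0)
  v := Pt.inf none
  quad := by
    intro l
    rcases l with ⟨s, β, α⟩ | ⟨m, g⟩ | _
    · refine ⟨?_, ?_, ?_, ?_⟩
      · rintro ⟨h1, h2, h3⟩
        simp only [inf_mem_kl] at h3
        subst h3
        simp only [aff_mem_kl, icpt_some] at h1 h2
        have := h1.2.trans h2.2.symm
        norm_num at this
        linarith
      · rintro ⟨h1, h2, h3⟩
        simp only [inf_mem_kl] at h3
        subst h3
        simp only [aff_mem_kl, icpt_none] at h1 h2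
        have := h1.2.trans h2.2.symm
        norm_num at this
        linarith
      · rintro ⟨h1, h2, h3⟩
        simp only [inf_mem_kl] at h2 h3
        rw [← h2] at h3
        exact absurd h3 (by simp)
      · rintro ⟨h1, h2, h3⟩
        simp only [inf_mem_kl] at h2 h3
        rw [← h2] at h3
        exact absurd h3 (by simp)
    · simp
    · simp
  u_mem := trivial
  v_mem := trivial

lemma F_in : F.InSubplane Q :=
  ⟨Or.inl ⟨_, rfl⟩, Or.inl ⟨_, rfl⟩, Or.inr ⟨_, rfl⟩, Or.inr ⟨_, rfl⟩⟩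

/-- The diagonal point with `ν = (a,a)`, `ρ = (b,b)`. -/
def dg (a b : ℚ) : F.T :=
  ⟨Pt.aff (a, a) (b, b), fun h => h, Ln.kl (some 1) 0 0, by
    refine ⟨?_, ?_, ?_⟩
    · simp [F, tw]
    · simp [F, tw]
    · simp [tw]⟩

/-- coordinates in the plane -/
lemma isPt_dg (a b a' b' : ℚ) : F.IsPt (dg a b).1 (dg a' b').1 (Pt.aff (a, a') (b, b')) := by
  refine ⟨fun h => h, ⟨Ln.kl none a b, rfl, ?_, ?_⟩, ⟨Ln.kl (some 0) a' b', rfl, ?_, ?_⟩⟩
  · simp [dg, tw]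
  · simp [tw]
  · simp [dg, tw]
  · simp [tw]

lemma F_o : F.o = (dg 0 0).1 := rfl
lemma F_e : F.e = (dg 0 1).1 := rfl
lemma F_zero : F.zero = dg 0 0 := rfl
lemma F_one : F.one = dg 0 1 := rfl

/-- slopes of the elements of the subplane -/
lemma isSlope_dg (t : ℚ) : F.IsSlope (dg 0 t).1 (Pt.inf (some t)) := by
  refine ⟨trivial, Ln.kl (some t) 0 0, Pt.aff (0, 0) (1, t), ?_, ?_, ?_, rfl⟩
  · exact isPt_dg 0 1 0 t
  · simp [F, tw_zero]
  · simp [tw]

/-- ternary operation for slopes in the subplane -/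
lemma tern_dg (a b t c d : ℚ) :
    F.tern (dg a b) (dg 0 t) (dg c d) =
      dg (a * t + c) (b * t + d + tw (some t) (a, a * t + c)) := by
  apply F.tern_eq
  refine ⟨Ln.kl (some t) c d, Pt.inf (some t),
    Pt.aff (a, a * t + c) (b, b * t + d + tw (some t) (a, a * t + c)), Pt.aff (0, c) (0, d),
    isSlope_dg t, ?_, isPt_dg _ _ _ _, rfl, ?_, ?_⟩
  · exact isPt_dg 0 0 c d
  · simp [tw]
  · simp only [aff_mem_kl, icpt_some]
    constructor <;> ring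

/-- The ternary field is not linear over the subfield. -/
theorem not_linear : ¬ F.IsLinearOver Q := by
  intro h
  have h1 := h (dg 1 0) (dg 1 0) (dg 0 2) (Or.inl ⟨_, rfl⟩)
  unfold Frame.add Frame.mul at h1
  rw [F_zero, F_one, tern_dg, tern_dg, tern_dg] at h1
  have h2 := congrArg Subtype.val h1
  simp only [dg, Pt.aff.injEq, Prod.mk.injEq, tw] at h2
  norm_num at h2

end Pool.Agent.MP_da03c4_co
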